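import Pool.Agent.MP_3d716e_an.H63.Spec

/-! The sharp Faber-Krahn inequality from the exact Riccati solution `x F 1 x / F 0 x`. -/

set_option autoImplicit false
open MeasureTheory Set Real Filter Topology
open Pool.Agent.MP_3d716e_an.H83 Pool.Agent.MP_3d716e_an.H63

namespace Pool.Agent.MP_3d716e_an.H46

noncomputable def m (x : ℝ) : ℝ := F 1 x / F 0 x

lemma rec0 (x : ℝ) : x * F 2 x = 4 * (F 1 x - F 0 x) := by
  have := F_rec 0 x
  simp only [Nat.cast_zero, zero_add, one_mul] at this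
  linarith

lemma G_nonneg {x : ℝ} (hx : 0 ≤ x) :
    0 ≤ x * (F 0 x ^ 2 + x * F 1 x ^ 2 / 4 - F 0 x * F 1 x) := by
  have hd : ∀ t, HasDerivAt (fun t => t * (F 0 t ^ 2 + t * F 1 t ^ 2 / 4 - F 0 t * F 1 t))
      (t * F 1 t ^ 2 / 4) t := fun t => by
    have h0 := hasDerivAt_F 0 t
    have h1 := hasDerivAt_F 1 t
    have h := (hasDerivAt_id t).mul (((h0.pow 2).add
      (((hasDerivAt_id t).mul (h1.pow 2)).div_const 4)).sub (h0.mul h1))
    refine h.congr_deriv ?_
    have r := rec0 t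
    simp only [id, Pi.mul_apply, Pi.add_apply, Pi.sub_apply, Pi.pow_apply, zero_add]
    push_cast
    linear_combination (F 0 t / 4 - t * F 1 t / 8) * r
  have hm : MonotoneOn (fun t => t * (F 0 t ^ 2 + t * F 1 t ^ 2 / 4 - F 0 t * F 1 t)) (Ici 0) := by
    refine monotoneOn_of_deriv_nonneg (convex_Ici 0)
      (fun t _ => (hd t).continuousAt.continuousWithinAt)
      (fun t _ => (hd t).differentiableAt.differentiableWithinAt) fun t ht => ?_
    rw [interior_Ici] at ht
    rw [(hd t).deriv]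
    have : 0 < t := ht
    positivity
  have := hm self_mem_Ici hx hx
  simpa using this

lemma hasDerivAt_m {x : ℝ} (hx : F 0 x ≠ 0) :
    HasDerivAt m ((F 1 x ^ 2 - F 0 x * F 2 x) / (4 * F 0 x ^ 2)) x := by
  have h := (hasDerivAt_F 1 x).div (hasDerivAt_F 0 x) hx
  refine h.congr_deriv ?_
  simp only [zero_add, show 1 + 1 = 2 from rfl]
  field_simp
  ring

lemma hasDerivAt_k {x : ℝ} (hx : F 0 x ≠ 0) :
    HasDerivAt (fun t => t * m t) (1 + x * m x ^ 2 / 4) x := by
  have h := (hasDerivAt_id x).mul (hasDerivAt_m hx)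
  refine h.congr_deriv ?_
  have r := rec0 x
  simp only [id, m]
  field_simp
  linear_combination (-F 0 x) * r

section
variable {l : ℝ} (hl : ∀ x, 0 ≤ x → x ≤ l → 0 < F 0 x)
include hl

lemma m_mono : MonotoneOn m (Icc 0 l) := by
  refine monotoneOn_of_deriv_nonneg (convex_Icc 0 l)
    (fun t ht => (hasDerivAt_m (hl t ht.1 ht.2).ne').continuousAt.continuousWithinAt)
    (fun t ht => ?_) fun t ht => ?_
  · rw [interior_Icc] at ht
    exact (hasDerivAt_m (hl t ht.1.le ht.2.le).ne').differentiableAt.differentiableWithinAt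
  · rw [interior_Icc] at ht
    have h0 := hl t ht.1.le ht.2.le
    rw [(hasDerivAt_m h0.ne').deriv]
    refine div_nonneg ?_ (by positivity)
    have g := G_nonneg ht.1.le
    have r := rec0 t
    have t0 := ht.1
    have e : t * (t * (F 1 t ^ 2 - F 0 t * F 2 t)) =
        4 * (t * (F 0 t ^ 2 + t * F 1 t ^ 2 / 4 - F 0 t * F 1 t)) := by
      linear_combination (-t * F 0 t) * r
    have : 0 ≤ t * (t * (F 1 t ^ 2 - F 0 t * F 2 t)) := by rw [e]; linarith
    exact nonneg_of_mul_nonneg_right (nonneg_of_mul_nonneg_right this t0) t0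

lemma m_nonneg {x : ℝ} (h0 : 0 ≤ x) (h1 : x ≤ l) : 0 ≤ m x := by
  have := m_mono hl (left_mem_Icc.2 (h0.trans h1)) ⟨h0, h1⟩ h0
  have e : m 0 = 1 := by simp [m, F_zero]
  linarith

lemma k_inc {a b : ℝ} (h0 : 0 ≤ a) (hab : a ≤ b) (h1 : b ≤ l) :
    (1 + a * m a ^ 2 / 4) * (b - a) ≤ b * m b - a * m a := by
  have hd : ∀ t ∈ Icc a b, HasDerivAt (fun t => t * m t - (1 + a * m a ^ 2 / 4) * t)
      (1 + t * m t ^ 2 / 4 - (1 + a * m a ^ 2 / 4) * 1) t := fun t ht =>
    (hasDerivAt_k (hl t (h0.trans ht.1) (ht.2.trans h1)).ne').sub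
      ((hasDerivAt_id t).const_mul _)
  have hm : MonotoneOn (fun t => t * m t - (1 + a * m a ^ 2 / 4) * t) (Icc a b) := by
    refine monotoneOn_of_deriv_nonneg (convex_Icc a b)
      (fun t ht => (hd t ht).continuousAt.continuousWithinAt)
      (fun t ht => (hd t (interior_subset ht)).differentiableAt.differentiableWithinAt)
      fun t ht => ?_
    have ht := interior_subset ht
    rw [(hd t ht).deriv]
    have h2 := m_mono hl ⟨h0, hab.trans h1⟩ ⟨h0.trans ht.1, ht.2.trans h1⟩ ht.1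
    have h3 := m_nonneg hl h0 (hab.trans h1)
    have h4 : a * m a ^ 2 ≤ t * m t ^ 2 := by
      have := ht.1
      gcongr
      linarith
    linarith
  have := hm (left_mem_Icc.2 hab) (right_mem_Icc.2 hab) hab
  simp only at this
  linarith

lemma ric (l0 : 0 < l) {R : ℝ} (hR : 0 < R) :
    Ric (l / R ^ 2) (π * R ^ 2) (fun s => π * (l / R ^ 2 * s / π * m (l / R ^ 2 * s / π)))
      (fun s => l / R ^ 2 * (l / R ^ 2 * s / π * m (l / R ^ 2 * s / π) ^ 2 / 4)) := by
  have hπ := pi_pos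
  set L := l / R ^ 2 with hL
  have hL0 : 0 < L := by positivity
  have hv0 : ∀ s, 0 ≤ s → 0 ≤ L * s / π := fun s hs => by positivity
  have hv1 : ∀ s, s ≤ π * R ^ 2 → L * s / π ≤ l := fun s hs => by
    calc L * s / π ≤ L * (π * R ^ 2) / π := by gcongr
      _ = l := by rw [hL]; field_simp
  refine ⟨hL0.le, by simp, fun s hs hs' => ?_, fun s hs hs' => ?_, fun s hs hs' => ?_,
    fun a b ha hab hb => ?_⟩
  · have := m_nonneg hl (hv0 s hs) (hv1 s hs')
    positivity
  · positivity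
  · apply le_of_eq; field_simp
  · have h := k_inc hl (hv0 a ha) (show L * a / π ≤ L * b / π by gcongr) (hv1 b hb)
    have h' := mul_le_mul_of_nonneg_left h hπ.le
    have e : (L + L * (L * a / π * m (L * a / π) ^ 2 / 4)) * (b - a) =
        π * ((1 + L * a / π * m (L * a / π) ^ 2 / 4) * (L * b / π - L * a / π)) := by
      field_simp
    rw [e]; linarith

lemma fk_closed (l0 : 0 < l) : FK l := by
  intro f hf hc R hR hmu
  have h := level hf hc (ric hl l0 hR) (b := 0) (c := 0) le_rfl (by simp) hmu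
  simp only [add_zero, ne_eq, OfNat.ofNat_ne_zero, not_false_eq_true, zero_pow, zero_mul] at h
  have h2 : ∫ p in U f 0, g2 f p ≤ ∫ p, g2 f p :=
    setIntegral_le_integral (int_g2 hf hc) (Eventually.of_forall fun p => g2_nonneg f p)
  have h3 := mul_le_mul_of_nonneg_left (h.trans h2) (sq_nonneg R)
  refine le_trans (le_of_eq ?_) h3
  field_simp

end

theorem fk : FKStmt := by
  intro l l0 hl f hf hc R hR hmu
  have hI : 0 ≤ ∫ p in U f 0, f p ^ 2 := integral_nonneg fun p => sq_nonneg _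
  have key : ∀ l', 0 < l' → l' < l → l' * ∫ p in U f 0, f p ^ 2 ≤ R ^ 2 * ∫ p, g2 f p :=
    fun l' h0 h1 => fk_closed (fun x hx hx' => hl x hx (hx'.trans_lt h1)) h0 f hf hc R hR hmu
  have ht : Tendsto (fun t : ℝ => t * ∫ p in U f 0, f p ^ 2) (𝓝[<] l)
      (𝓝 (l * ∫ p in U f 0, f p ^ 2)) :=
    ((continuous_id.mul continuous_const).tendsto l).mono_left nhdsWithin_le_nhds
  refine le_of_tendsto ht ?_
  filter_upwards [Ioo_mem_nhdsLT l0] with t ht using key t ht.1 ht.2

end Pool.Agent.MP_3d716e_an.H46
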